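import Pool.Agent.helper93.TV.Spec2

/-!
# Row tv:DF: the operators of the category form compatible families
-/

namespace Pool.Agent.helper93.TV

open BigOperators Finset Matrix

variable {I V : Type} [Fintype I] [DecidableEq I] [Fintype V] [DecidableEq V]

theorem DF_ok_iff (D : FD I V) (X : Finset I) (a : I) (p : List V) :
    D.ok X a p ↔ D.ok univ a p ∧ ∀ x ∈ p.map D.s2, x ∈ X := by
  induction p generalizing a with
  | nil => simp [FD.ok]
  | cons e p ih =>
    simp only [FD.ok, ih, mem_univ, true_and, List.map_cons, List.mem_cons, forall_eq_or_imp]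
    tauto

/-- Transport of `lam x` in a category. -/
theorem DF_lam (hU1 : U1_stmt) (D : FD I V) (F : V → V → V → V → ℂ) (hF : D.UFS F)
    (x : I) (p p' : List V) (l' : V) (h : tp F (D.lam x) p p' l' ≠ 0) :
    p = p' ∧ D.ok univ x p ∧ l' = D.lam (D.en x p) ∧ tp F (D.lam x) p p' l' = 1 := by
  induction p generalizing x p' with
  | nil => cases p' with
    | nil =>
      rw [tp_nil] at h ⊢
      by_cases h1 : D.lam x = l'
      · exact ⟨rfl, trivial, h1.symm, if_pos h1⟩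
      · rw [if_neg h1] at h
        exact absurd rfl h
    | cons e' p' => exact absurd (tp_nil_cons F _ _ _ _) h
  | cons e p ih => cases p' with
    | nil => exact absurd (tp_cons_nil F _ _ _ _) h
    | cons e' p' =>
      have key : ∀ l'', F (D.lam x) e e' l'' ≠ 0 → D.s1 e = x ∧ l'' = D.lam (D.t e) := by
        intro l'' h0
        obtain ⟨⟨c1, c2, c3, c4, c5, c6⟩, -, -⟩ := hF.uf.conn.supp _ _ _ _ h0
        rw [D.t_lam] at c1
        rw [D.s1_lam] at c3
        refine ⟨c1.symm, ?_⟩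
        have h1 := D.lam_unique l'' c3.symm
        have h2 : D.t l'' = D.s2 l'' := by
          conv_lhs => rw [h1, D.t_lam]
        rw [c6, h2]
        exact h1
      rw [tp_cons] at h ⊢
      obtain ⟨l'', -, h2⟩ := Finset.exists_ne_zero_of_sum_ne_zero h
      obtain ⟨h3, h4⟩ := key l'' (left_ne_zero_of_mul h2)
      subst h3
      subst h4
      have hF1 := hU1 I V D F hF e e'
      have hee : e = e' := by
        by_contra hcon
        rw [if_neg hcon] at hF1
        exact left_ne_zero_of_mul h2 hF1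
      subst hee
      rw [if_pos rfl] at hF1
      obtain ⟨i1, i2, i3, i4⟩ := ih (D.t e) p' (right_ne_zero_of_mul h2)
      subst i1
      refine ⟨rfl, ⟨rfl, mem_univ _, i2⟩, i3, ?_⟩
      rw [Finset.sum_eq_single (D.lam (D.t e)), hF1, i4, one_mul]
      · intro l'' _ hne
        by_contra hcon
        exact hne (key l'' (left_ne_zero_of_mul hcon)).2
      · intro hn
        exact absurd (mem_univ _) hn

theorem DF_lam_diag (hU1 : U1_stmt) (D : FD I V) (F : V → V → V → V → ℂ) (hF : D.UFS F)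
    (x : I) (p : List V) (h : D.ok univ x p) :
    tp F (D.lam x) p p (D.lam (D.en x p)) = 1 := by
  induction p generalizing x with
  | nil => simp [FD.en]
  | cons e p ih =>
    obtain ⟨h1, -, h2⟩ := h
    subst h1
    rw [tp_cons, Finset.sum_eq_single (D.lam (D.t e)), hU1 I V D F hF e e, if_pos rfl, one_mul]
    · exact ih (D.t e) h2
    · intro l'' _ hne
      have h0 : F (D.lam (D.s1 e)) e e l'' = 0 := by
        by_contra hcon
        obtain ⟨⟨c1, c2, c3, c4, c5, c6⟩, -, -⟩ := hF.uf.conn.supp _ _ _ _ hcon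
        rw [D.s1_lam] at c3
        have h1 := D.lam_unique l'' c3.symm
        have h2 : D.t l'' = D.s2 l'' := by
          conv_lhs => rw [h1, D.t_lam]
        apply hne
        rw [c6, h2]
        exact h1
      rw [h0, zero_mul]
    · intro hn
      exact absurd (mem_univ _) hn

/-- Column relation for `rho b`. -/
theorem DF_col (hTU : TU_out) (D : FD I V) (F : V → V → V → V → ℂ) (hF : D.UFS F) (n : ℕ)
    (b : I) (p' p₁ : List V) (β β₁ : V) (hp' : p' ∈ lists V n) (hp₁ : p₁ ∈ lists V n)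
    (hok : D.ok univ D.o p') (hen : D.en D.o p' = D.s2 β) (hs : D.s1 β = b) :
    ∑ q ∈ lists V n, star (tp F (D.rho b) q p' β) * tp F (D.rho b) q p₁ β₁ =
      if p' = p₁ ∧ β = β₁ then 1 else 0 := by
  have h1 := ((hTU I V D univ F hF.uf.conn n).2 p' β p₁ β₁ (mem_univ _) hp' hp₁
    ⟨D.o, hok, hen⟩)
  rw [← h1, Finset.sum_eq_single (D.rho b)]
  · intro l _ hne
    refine Finset.sum_eq_zero fun q hq => ?_
    have h0 : tp F l q p' β = 0 := by
      by_contra hcon
      obtain ⟨h3, h4, h5, h6, h7, h8⟩ := tp_supp D univ F hF.uf.conn _ _ _ _ hcon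
      have hso : D.s2 l = D.o := by
        cases p' with
        | nil =>
          have e1 : D.en D.o ([] : List V) = D.o := rfl
          have e2 : D.en (D.s2 l) ([] : List V) = D.s2 l := rfl
          rw [e1] at hen
          rw [e2] at h6
          rw [← h6, hen]
        | cons e p' =>
          obtain ⟨e1, -, -⟩ := hok
          obtain ⟨e2, -, -⟩ := h4
          rw [← e2, e1]
      apply hne
      rw [D.rho_unique l hso, h5, hs]
    rw [h0, star_zero, zero_mul]
  · intro hn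
    exact absurd (mem_univ _) hn

/-- The main relation. -/
theorem DF_star (hTU : TU_out) (hDR : DR_out) (D : FD I V) (F : V → V → V → V → ℂ)
    (hF : D.UFS F) (n : ℕ) (l : V) (q₀ q' : List V) (β l' : V) (hq₀ : q₀ ∈ lists V n)
    (hq' : q' ∈ lists V n) (hok : D.ok univ D.o q₀) (hen : D.en D.o q₀ = D.s2 β)
    (hs : D.s1 β = D.t l) :
    ∑ q ∈ lists V n, star (tp F (D.rho (D.t l)) q q₀ β) * tp F l q q' l' =
      ∑ β₁, F l β β₁ l' * star (tp F (D.rho (D.s2 l)) q' q₀ β₁) := by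
  have hrow : ∀ q ∈ lists V n, ∀ q'' ∈ lists V n, tp F l q q'' l' ≠ 0 →
      ∑ q₁ ∈ lists V n, ∑ β₁, tp F (D.rho (D.s2 l)) q'' q₁ β₁ *
        star (tp F (D.rho (D.s2 l)) q' q₁ β₁) = if q'' = q' then 1 else 0 := by
    intro q hq q'' hq'' hne
    obtain ⟨h3, h4, -, -, -, -⟩ := tp_supp D univ F hF.uf.conn _ _ _ _ hne
    have h5 := (hTU I V D univ F hF.uf.conn n).1 (D.rho (D.s2 l)) q'' (D.rho (D.s2 l)) q'
      (mem_univ _) hq'' hq' (by rw [D.t_rho]; exact h4)
    rw [h5]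
    simp
  have hL : ∀ q ∈ lists V n, tp F l q q' l' =
      ∑ q₁ ∈ lists V n, ∑ β₁, (∑ β₂, tp F (D.rho (D.t l)) q q₁ β₂ * F l β₂ β₁ l') *
        star (tp F (D.rho (D.s2 l)) q' q₁ β₁) := by
    intro q hq
    have e1 : ∀ q₁ ∈ lists V n, ∀ β₁, (∑ β₂, tp F (D.rho (D.t l)) q q₁ β₂ * F l β₂ β₁ l') *
        star (tp F (D.rho (D.s2 l)) q' q₁ β₁) =
        ∑ q'' ∈ lists V n, tp F l q q'' l' * (tp F (D.rho (D.s2 l)) q'' q₁ β₁ *
          star (tp F (D.rho (D.s2 l)) q' q₁ β₁)) := by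
      intro q₁ hq₁ β₁
      rw [hDR I V D F hF n l q hq q₁ hq₁ β₁ l', Finset.sum_mul]
      exact Finset.sum_congr rfl fun q'' _ => by ring
    have e2 : ∑ q₁ ∈ lists V n, ∑ β₁, (∑ β₂, tp F (D.rho (D.t l)) q q₁ β₂ * F l β₂ β₁ l') *
        star (tp F (D.rho (D.s2 l)) q' q₁ β₁) =
        ∑ q'' ∈ lists V n, tp F l q q'' l' * ∑ q₁ ∈ lists V n, ∑ β₁,
          tp F (D.rho (D.s2 l)) q'' q₁ β₁ * star (tp F (D.rho (D.s2 l)) q' q₁ β₁) := by
      rw [Finset.sum_congr rfl fun q₁ hq₁ => Finset.sum_congr rfl fun β₁ _ => e1 q₁ hq₁ β₁]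
      rw [Finset.sum_congr rfl fun q₁ _ => Finset.sum_comm]
      rw [Finset.sum_comm]
      refine Finset.sum_congr rfl fun q'' _ => ?_
      rw [Finset.mul_sum]
      exact Finset.sum_congr rfl fun q₁ _ => by rw [Finset.mul_sum]
    rw [e2, Finset.sum_eq_single q']
    · by_cases h0 : tp F l q q' l' = 0
      · rw [h0, zero_mul]
      · rw [hrow q hq q' hq' h0, if_pos rfl, mul_one]
    · intro q'' hq'' hne
      by_cases h0 : tp F l q q'' l' = 0
      · rw [h0, zero_mul]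
      · rw [hrow q hq q'' hq'' h0, if_neg hne, mul_zero]
    · intro hn
      exact absurd hq' hn
  rw [Finset.sum_congr rfl fun q hq => by rw [hL q hq]]
  have e3 : ∀ q ∈ lists V n, star (tp F (D.rho (D.t l)) q q₀ β) *
      ∑ q₁ ∈ lists V n, ∑ β₁, (∑ β₂, tp F (D.rho (D.t l)) q q₁ β₂ * F l β₂ β₁ l') *
        star (tp F (D.rho (D.s2 l)) q' q₁ β₁) =
      ∑ q₁ ∈ lists V n, ∑ β₁, ∑ β₂, (star (tp F (D.rho (D.t l)) q q₀ β) *
        tp F (D.rho (D.t l)) q q₁ β₂) * (F l β₂ β₁ l' *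
        star (tp F (D.rho (D.s2 l)) q' q₁ β₁)) := by
    intro q _
    rw [Finset.mul_sum]
    refine Finset.sum_congr rfl fun q₁ _ => ?_
    rw [Finset.mul_sum]
    refine Finset.sum_congr rfl fun β₁ _ => ?_
    rw [Finset.sum_mul, Finset.mul_sum]
    exact Finset.sum_congr rfl fun β₂ _ => by ring
  rw [Finset.sum_congr rfl e3, Finset.sum_comm, Finset.sum_eq_single q₀]
  · rw [Finset.sum_comm]
    refine Finset.sum_congr rfl fun β₁ _ => ?_
    rw [Finset.sum_comm, Finset.sum_eq_single β]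
    · rw [← Finset.sum_mul, DF_col hTU D F hF n (D.t l) q₀ q₀ β β hq₀ hq₀ hok hen hs,
        if_pos ⟨rfl, rfl⟩, one_mul]
    · intro β₂ _ hne
      rw [← Finset.sum_mul, DF_col hTU D F hF n (D.t l) q₀ q₀ β β₂ hq₀ hq₀ hok hen hs,
        if_neg (fun h => hne h.2.symm), zero_mul]
    · intro hn
      exact absurd (mem_univ _) hn
  · intro q₁ hq₁ hne
    rw [Finset.sum_comm]
    refine Finset.sum_eq_zero fun β₁ _ => ?_
    rw [Finset.sum_comm]
    refine Finset.sum_eq_zero fun β₂ _ => ?_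
    rw [← Finset.sum_mul, DF_col hTU D F hF n (D.t l) q₀ q₁ β β₂ hq₀ hq₁ hok hen hs,
      if_neg (fun h => hne h.1.symm), zero_mul]
  · intro hn
    exact absurd hq₀ hn

theorem DF : DF_stmt := by
  intro hU1 _ hTU hDT hDR I V _ _ _ _ D X F hF n n' T hT
  obtain ⟨hcR, hDT2⟩ := hDT I V D X F hF.uf
  have hsupp : ∀ a p q, D.phiF F n n' T a p q ≠ 0 → p ∈ lists V n ∧ q ∈ lists V n' ∧
      D.ok X a p ∧ D.ok X a q ∧ D.en a p = D.en a q := by
    intro a p q h
    obtain ⟨p₀, hp₀, h⟩ := Finset.exists_ne_zero_of_sum_ne_zero h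
    obtain ⟨q₀, hq₀, h⟩ := Finset.exists_ne_zero_of_sum_ne_zero h
    obtain ⟨β, -, h⟩ := Finset.exists_ne_zero_of_sum_ne_zero h
    have h1 := left_ne_zero_of_mul (left_ne_zero_of_mul h)
    have h2 := right_ne_zero_of_mul (left_ne_zero_of_mul h)
    have h3 : tp F (D.rho a) q q₀ β ≠ 0 := fun h0 => right_ne_zero_of_mul h (by rw [h0, star_zero])
    obtain ⟨-, -, o1, o2, -⟩ := hT p₀ q₀ h2
    obtain ⟨a1, a2, a3, a4, a5, a6⟩ := tp_supp D univ F hF.uf.conn _ _ _ _ h1
    obtain ⟨b1, b2, b3, b4, b5, b6⟩ := tp_supp D univ F hF.uf.conn _ _ _ _ h3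
    rw [D.t_rho] at a1 a5 b1 b5
    refine ⟨?_, ?_, ?_, ?_, ?_⟩
    · rw [mem_lists, tp_length _ _ _ _ _ h1]
      exact mem_lists.1 hp₀
    · rw [mem_lists, tp_length _ _ _ _ _ h3]
      exact mem_lists.1 hq₀
    · rw [DF_ok_iff]
      exact ⟨a1, by rw [a6]; exact ((DF_ok_iff D X _ _).1 o1).2⟩
    · rw [DF_ok_iff]
      exact ⟨b1, by rw [b6]; exact ((DF_ok_iff D X _ _).1 o2).2⟩
    · rw [← a5, ← b5]
  refine ⟨⟨hsupp, ?_⟩, ?_⟩
  · intro l p q' l' hlX hp hq'
    have eL : ∑ q ∈ lists V n', D.phiF F n n' T (D.t l) p q * tp (D.restr X F) l q q' l' =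
        ∑ q ∈ lists V n', D.phiF F n n' T (D.t l) p q * tp F l q q' l' := by
      refine Finset.sum_congr rfl fun q _ => ?_
      by_cases h0 : D.phiF F n n' T (D.t l) p q = 0
      · rw [h0, zero_mul, zero_mul]
      · rw [hDT2 l q q' l' hlX (Or.inl (hsupp _ _ _ h0).2.2.2.1)]
    have eR : ∑ p' ∈ lists V n, tp (D.restr X F) l p p' l' * D.phiF F n n' T (D.s2 l) p' q' =
        ∑ p' ∈ lists V n, tp F l p p' l' * D.phiF F n n' T (D.s2 l) p' q' := by
      refine Finset.sum_congr rfl fun p' _ => ?_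
      by_cases h0 : D.phiF F n n' T (D.s2 l) p' q' = 0
      · rw [h0, mul_zero, mul_zero]
      · rw [hDT2 l p p' l' hlX (Or.inr (hsupp _ _ _ h0).2.2.1)]
    rw [eL, eR]
    -- left side
    have e1 : ∑ q ∈ lists V n', D.phiF F n n' T (D.t l) p q * tp F l q q' l' =
        ∑ p₀ ∈ lists V n, ∑ q₀ ∈ lists V n', ∑ β, tp F (D.rho (D.t l)) p p₀ β * T p₀ q₀ *
          ∑ q ∈ lists V n', star (tp F (D.rho (D.t l)) q q₀ β) * tp F l q q' l' := by
      unfold FD.phiF
      simp only [Finset.sum_mul, Finset.mul_sum]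
      rw [Finset.sum_comm]
      refine Finset.sum_congr rfl fun p₀ _ => ?_
      rw [Finset.sum_comm]
      refine Finset.sum_congr rfl fun q₀ _ => ?_
      rw [Finset.sum_comm]
      refine Finset.sum_congr rfl fun β _ => ?_
      exact Finset.sum_congr rfl fun q _ => by ring
    have e2 : ∀ p₀ ∈ lists V n, ∀ q₀ ∈ lists V n', ∀ β,
        tp F (D.rho (D.t l)) p p₀ β * T p₀ q₀ *
          ∑ q ∈ lists V n', star (tp F (D.rho (D.t l)) q q₀ β) * tp F l q q' l' =
        tp F (D.rho (D.t l)) p p₀ β * T p₀ q₀ *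
          ∑ β₁, F l β β₁ l' * star (tp F (D.rho (D.s2 l)) q' q₀ β₁) := by
      intro p₀ hp₀ q₀ hq₀ β
      by_cases h1 : tp F (D.rho (D.t l)) p p₀ β = 0
      · rw [h1, zero_mul, zero_mul, zero_mul]
      by_cases h2 : T p₀ q₀ = 0
      · rw [h2, mul_zero, zero_mul, zero_mul]
      obtain ⟨-, -, o1, o2, o3⟩ := hT p₀ q₀ h2
      obtain ⟨a1, a2, a3, a4, a5, a6⟩ := tp_supp D univ F hF.uf.conn _ _ _ _ h1
      rw [D.s2_rho] at a4
      rw [D.s1_rho] at a3
      rw [DF_star hTU hDR D F hF n' l q₀ q' β l' hq₀ hq' ((DF_ok_iff D X _ _).1 o2).1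
        (by rw [a4, o3]) a3.symm]
    rw [e1, Finset.sum_congr rfl fun p₀ hp₀ => Finset.sum_congr rfl fun q₀ hq₀ =>
      Finset.sum_congr rfl fun β _ => e2 p₀ hp₀ q₀ hq₀ β]
    -- right side
    have e3 : ∑ p' ∈ lists V n, tp F l p p' l' * D.phiF F n n' T (D.s2 l) p' q' =
        ∑ p₀ ∈ lists V n, ∑ q₀ ∈ lists V n', ∑ β₁, (∑ p' ∈ lists V n,
          tp F l p p' l' * tp F (D.rho (D.s2 l)) p' p₀ β₁) * (T p₀ q₀ *
            star (tp F (D.rho (D.s2 l)) q' q₀ β₁)) := by
      unfold FD.phiF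
      simp only [Finset.sum_mul, Finset.mul_sum]
      rw [Finset.sum_comm]
      refine Finset.sum_congr rfl fun p₀ _ => ?_
      rw [Finset.sum_comm]
      refine Finset.sum_congr rfl fun q₀ _ => ?_
      rw [Finset.sum_comm]
      refine Finset.sum_congr rfl fun β _ => ?_
      exact Finset.sum_congr rfl fun q _ => by ring
    rw [e3]
    refine Finset.sum_congr rfl fun p₀ hp₀ => Finset.sum_congr rfl fun q₀ _ => ?_
    have e4 : ∀ β₁, (∑ p' ∈ lists V n, tp F l p p' l' * tp F (D.rho (D.s2 l)) p' p₀ β₁) *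
        (T p₀ q₀ * star (tp F (D.rho (D.s2 l)) q' q₀ β₁)) =
        ∑ β, (tp F (D.rho (D.t l)) p p₀ β * T p₀ q₀) * (F l β β₁ l' *
          star (tp F (D.rho (D.s2 l)) q' q₀ β₁)) := by
      intro β₁
      rw [← hDR I V D F hF n l p hp p₀ hp₀ β₁ l', Finset.sum_mul]
      exact Finset.sum_congr rfl fun β _ => by ring
    rw [Finset.sum_congr rfl fun β₁ _ => e4 β₁, Finset.sum_comm]
    refine Finset.sum_congr rfl fun β _ => ?_
    rw [Finset.mul_sum]
  · funext p q
    have hro : D.rho D.o = D.lam D.o := by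
      have h1 := D.lam_unique (D.rho D.o) (D.s1_rho D.o)
      rw [D.s2_rho] at h1
      exact h1
    unfold FD.phiF
    rw [hro]
    by_cases hTpq : T p q = 0
    · rw [hTpq]
      refine Finset.sum_eq_zero fun p₀ _ => Finset.sum_eq_zero fun q₀ _ =>
        Finset.sum_eq_zero fun β _ => ?_
      by_cases h1 : tp F (D.lam D.o) p p₀ β = 0
      · rw [h1, zero_mul, zero_mul]
      by_cases h2 : tp F (D.lam D.o) q q₀ β = 0
      · rw [h2, star_zero, mul_zero]
      obtain ⟨i1, -, -, -⟩ := DF_lam hU1 D F hF _ _ _ _ h1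
      obtain ⟨i2, -, -, -⟩ := DF_lam hU1 D F hF _ _ _ _ h2
      rw [← i1, ← i2, hTpq, mul_zero, zero_mul]
    · obtain ⟨hp, hq, o1, o2, o3⟩ := hT p q hTpq
      have o1' := ((DF_ok_iff D X _ _).1 o1).1
      have o2' := ((DF_ok_iff D X _ _).1 o2).1
      rw [Finset.sum_eq_single p, Finset.sum_eq_single q,
        Finset.sum_eq_single (D.lam (D.en D.o p)), DF_lam_diag hU1 D F hF D.o p o1', o3,
        DF_lam_diag hU1 D F hF D.o q o2', star_one, one_mul, mul_one]
      · intro β _ hne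
        by_cases h1 : tp F (D.lam D.o) p p β = 0
        · rw [h1, zero_mul, zero_mul]
        · exact absurd (DF_lam hU1 D F hF _ _ _ _ h1).2.2.1 hne
      · intro hn
        exact absurd (mem_univ _) hn
      · intro q₀ _ hne
        refine Finset.sum_eq_zero fun β _ => ?_
        by_cases h2 : tp F (D.lam D.o) q q₀ β = 0
        · rw [h2, star_zero, mul_zero]
        · exact absurd (DF_lam hU1 D F hF _ _ _ _ h2).1.symm hne
      · intro hn
        exact absurd hq hn
      · intro p₀ _ hne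
        refine Finset.sum_eq_zero fun q₀ _ => Finset.sum_eq_zero fun β _ => ?_
        by_cases h1 : tp F (D.lam D.o) p p₀ β = 0
        · rw [h1, zero_mul, zero_mul]
        · exact absurd (DF_lam hU1 D F hF _ _ _ _ h1).1.symm hne
      · intro hn
        exact absurd hp hn

end Pool.Agent.helper93.TV
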